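import Pool.Agent.Q49.WU.Simple

/-!
# The Gross-Deligne conjecture, degree by degree, and cubic hypersurfaces

Let `A` be the following semisimple abelian category. The objects are finite direct sums of pure polarizable
objects `(V_dR, V_B, ρ)`: `V_B` is a rational Hodge structure, `V_dR` a vector space over `ℚ̄` with a
filtration, and `ρ` the comparison `V_dR ⊗ ℂ ≅ V_B ⊗ ℂ`, which maps the filtration to the Hodge filtration;
the morphisms respect everything, and the polarizations are morphisms. Subobjects of polarizable objects
are direct factors (orthogonal complements). Let `k ⊆ ℚ̄` be a subfield. For a scheme `X` of finite type over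
`k` and `m ≥ 0` let `(D m).H N n X` be the object `Gr^W_{m+2N} H^n_c(X_ℚ̄)` of `A`. For smooth projective `Y`
the object `(D m).H 0 n Y` is `H^m(Y_ℚ̄)` if `n = m`, and zero for all other `n`.

The object `R` is `m`-admissible (`adm m R`) if it is nonzero and pure of weight `m` and there are an
abelian number field `F` with `[F : ℚ] = dim R` and an injective homomorphism `ι` from `F` to the
endomorphisms of `R` in `A`. The admissible triples `(H, F, ι)` of the question are the `m`-admissible direct
factors `R` of `H^m(X)`, with `V_B = H` and `V_dR` spanned by the `ω_σ`. Let `GD R` be the relation of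
question Q1 for `R` and all `(F, ι)`, where `d ≥ 2` is any multiple of the conductor of `F` (by the theorem of
Koblitz and Ogus and the multiplication formula of the gamma function it does not depend on `d` and `ε`;
for `F = ℚ` it says that the period is `π^{m/2}` up to algebraic numbers, which is the relation for the
quadratic fields acting on `R ⊕ R`).

For the hypothesis `isotypic` (known): as `F` is a field with `[F : ℚ] = dim R`, the admissible object `R` is
isomorphic to `R₁ ⊗_E F` for a simple admissible object `R₁` with `End(R₁) = E ⊆ F` and
`[E : ℚ] = dim R₁`, and the periods of `R` for `σ` are those of `R₁` for `σ|_E`. The hypothesis `weight`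
says that `(D m).H N n X (a)` has weight `m + 2(N - a)`, and `point` that the periods of `ℚ(-p)` are `(2πi)^p`.
The hypothesis `anderson` is the theorem of Anderson, for `m = 1`: the admissible direct factors of `H^1(Y)`
are the cohomology groups `H^1` of abelian varieties with complex multiplication by `F`.

Every smooth projective variety over `ℚ̄` is a union of connected components of `Y_ℚ̄` for a smooth
projective scheme `Y` over `k` (also for `k = ℚ`).

**Theorem.** (1) For every `m` question Q1 in degree `m` has a positive answer for all smooth projective
varieties over `ℚ̄` if and only if the relation of Q1 is true for all admissible direct factors of the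
objects `Gr^W_{m+2(a-1)} H^n_c(T = 1)(a - 1)`, for the smooth affine cubic hypersurfaces `T(x, y, z) = 1` of
all trilinear forms `T` over `k` in `a` variables `x_p` and any numbers of variables `y_q`, `z_r`.

(2) For `k = ℚ` the hypersurfaces `X_H : ∑_{(p, q, r) ∈ H} x_p y_q z_r = 1` of all finite sets `H` of triples
suffice: question Q1 in degree `m` has a positive answer if and only if the relation is true for all
admissible direct factors of `Gr^W_{m+2(a-1)} H^n_c(X_H)(a - 1)`.

(3) Unconditionally (with `k = ℚ̄`), the relation is true for all admissible direct factors of the objects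
`Gr^W_{2a-1} H^n_c(T = 1)(a - 1)` of weight one, for all `T` in `a` variables `x_p` and all `n`.
-/

set_option autoImplicit false

open CategoryTheory CategoryTheory.Limits AlgebraicGeometry Pool.Agent.Y116.UV Pool.Agent.Z125.UN
  Pool.Agent.Q193.LT Pool.Agent.Q49.WU

universe v u

namespace Pool.Agent.Results.MP_b23d8d_ag.CubicsDegreeByDegree

/-- **The Gross-Deligne conjecture, degree by degree, and cubic hypersurfaces.** See the explanations
above. -/
theorem result {k : Type} [Field k] [CharZero k] {A : Type u} [Category.{v} A] [Abelian A]
    {D : ℤ → WeightData k A} (h : ∀ m, IsWMotives (D m)) {adm : ℤ → A → Prop} {GD : A → Prop}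
    (weight : ∀ m, AdmWeight (D m) (adm m)) (isotypic : ∀ m, Isotypic (adm m) GD)
    (point : ∀ m N, AdmAt (D m) (adm m) GD N (aff k k))
    (anderson : ∀ Y : Sch k, SmoothProj Y → AdmAt (D 1) (adm 1) GD 0 Y) :
    (∀ m, (∀ Y : Sch k, SmoothProj Y → AdmAt (D m) (adm m) GD 0 Y) ↔
      ∀ (a b c : ℕ) (T : Fin a → Fin b → Fin c → k),
        AdmAt (D m) (adm m) GD (a - 1) (hypS T)) ∧
    (Frac k → ∀ m, (∀ Y : Sch k, SmoothProj Y → AdmAt (D m) (adm m) GD 0 Y) ↔
      ∀ (a b c : ℕ) (H : Finset (Fin a × Fin b × Fin c)),
        AdmAt (D m) (adm m) GD (a - 1) (tripS k H)) ∧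
    ∀ (a b c : ℕ) (T : Fin a → Fin b → Fin c → k), AdmAt (D 1) (adm 1) GD (a - 1) (hypS T) := by
  have h1 := fun m => adm_forms (h m) (weight m) (isotypic m) (point m) 0
  have h2 := fun (hF : Frac k) m => adm_graphs (h m) (weight m) (isotypic m) (point m) hF 0
  simp only [zero_add] at h1 h2
  exact ⟨h1, h2, (h1 1).mp anderson⟩

end Pool.Agent.Results.MP_b23d8d_ag.CubicsDegreeByDegree
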