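import Pool.Agent.Q193.LT.Simp

/-!
# The Gross-Deligne conjecture and the cubics `∑_{(i, j, l) ∈ H} x_i y_j z_l = 1`

Let `A` be the abelian category of the triples `N = (N_B, N_dR, ρ)` of a mixed rational Hodge structure
`N_B`, a finite-dimensional `ℚ̄`-vector space `N_dR` with two filtrations `W`, `F` and an isomorphism
`ρ : N_dR ⊗ ℂ ≅ N_B ⊗ ℂ` that is compatible with the filtrations; it has Tate twists `N ↦ N(a)`. For a
separated scheme `X` of finite type over `ℚ` let `D.H i X` be the object of `A` given by the Betti and the
de Rham cohomology with compact supports of `X_{ℚ̄}`, in degree `i`. Its standard properties are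
`IsCompact D` (long exact sequences, affine bundles, products with `𝔾_m`) and `Generated D` (smooth
projective varieties generate in each dimension, by resolution of singularities).

Let `(H, F, ι)` be an admissible triple for a smooth projective variety `X` over `ℚ̄`. The span of the
`ω_σ` and `H` are an object `H'` of `A`, a subobject of `H^m(X)`. As `H` is a vector space of dimension one
over `F`, `H'` is isomorphic to a finite direct sum of copies of a simple object `S`. The variety `X` is
defined over a number field, and a component of `Y_{ℚ̄}` for a smooth projective scheme `Y` over `ℚ`; so
`S` occurs in `D.H m Y`. For a simple object `S` let `Gd S` be the statement that the relation of question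
Q1 is true for all finite direct sums of copies of a Tate twist `S(a)` and all actions of abelian number
fields `F` on them such that the dimension over `F` is one (and all `ε`, `λ`). The relation is compatible
with Tate twists, and the finite direct sums of copies of Tate twists of the objects `H^m(Y)` occur in the
cohomology of smooth projective varieties. So question Q1 (the statement `relation x` for all data
`x = (X, m, H, F, ι, ε, λ)`) is equivalent to `Gd S` for all simple objects `S` that are subquotients of
Tate twists of objects `H^m(Y)` for smooth projective schemes `Y` over `ℚ` (hypothesis `reduce`). For the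
simple subquotients of the Tate twists of the cohomology of the point, `Gd` is elementary (hypothesis
`point`), and for curves it is a theorem of Anderson (the premise of the last clause).

**Theorem.** (1) Question Q1 (the Gross-Deligne conjecture) has a positive answer if and only if the
Gross-Deligne relations `Gd S` hold for the simple subquotients `S` of the Tate twists of `H^i_c(Z)` for
all `i` and all smooth affine cubic hypersurfaces `Z : ∑_{(i, j, l) ∈ H} x_i y_j z_l = 1` over `ℚ`, where
`H` is a finite set of triples (a tripartite hypergraph).

(2) For all `n` the relations `Gd S` hold for the simple subquotients `S` of the Tate twists of `H^i(Y)`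
for all smooth projective schemes `Y` of dimension at most `n` over `ℚ` if and only if they hold for the
simple subquotients `S` of the Tate twists of `H^i_c(T = 1)` for the cubic hypersurfaces `T(x, y, z) = 1` of
the trilinear forms `T` with rational coefficients such that one of the three blocks of variables has at
most `n + 2` variables (the other two blocks are arbitrary).

(3) Unconditionally they hold for the trilinear forms `T` with a block of at most three variables.
-/

set_option autoImplicit false

open CategoryTheory CategoryTheory.Limits AlgebraicGeometry Pool.Agent.Y116.UV Pool.Agent.Z125.UN
  Pool.Agent.Q193.LT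

universe v u

namespace Pool.Agent.Results.MP_b23d8d_ag.HypergraphPeriods

/-- **The Gross-Deligne conjecture and cubic hypersurfaces.** See the explanations above. -/
theorem result {A : Type u} [Category.{v} A] [Abelian A] {D : CompactData ℚ A} (hD : IsCompact D)
    (hg : Generated D) {Gd : A → Prop} {V : Type 1} {relation : V → Prop}
    (reduce : (∀ x, relation x) ↔ SimplesOf D (AllProj ℚ) Gd)
    (point : SimplesOf D (IsPoint ℚ) Gd) :
    ((∀ x, relation x) ↔ SimplesOf D (GraphForms ℚ) Gd) ∧
    (∀ n : ℕ, SimplesOf D (DimProj ℚ n) Gd ↔ SimplesOf D (BlockForms ℚ (n + 2)) Gd) ∧
    (SimplesOf D (DimProj ℚ 1) Gd → SimplesOf D (BlockForms ℚ 3) Gd) :=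
  ⟨reduce.trans (simples_graph frac_rat hD hg point), fun n => simples_dim hD hg point n,
    (simples_dim hD hg point 1).mp⟩

end Pool.Agent.Results.MP_b23d8d_ag.HypergraphPeriods
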